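import Pool.Agent.Results.MP_13bc7b_nt.UniformRandomOrbits
import Pool.Agent.U569.APL.Null

/-!
# MP_13bc7b_nt: uniform boundedness of preperiodic points for endomorphisms with coefficients formed from arbitrary sets

For all `N ≥ 1` and `d ≥ 2` there is ONE function `C` such that the following is true for every number field `k`, with an
integral basis `ω`. Let a sequence (`j = 0, 1, 2, …`) of families of vectors in `ℤ ^ R` be given, where `R` is the number of
the coordinates with respect to `ω` of the coefficients of systems of `N + 1` forms of degree `d` in `N + 1` variables
(`system`). The vectors of the `j`-th family are `c₀ + y`, `c₀` an arbitrary integral vector (depending on `j`, of any size)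
and `y` one of the following vectors (represented by `0, …, q - 1`):

* `y` in any family of vectors modulo some `q` (depending on `j`), whose nontrivial Fourier coefficients are at most
  `1 / (Z (42 + 3 log q) ^ R)`, where `Z → ∞`, `Z ≤ q`;
* `β(x, z) + u(x) + w(z)` modulo a prime `P → ∞`, where `β : F ^ a × F ^ b → F ^ R` (`F` the field with `P` elements) is
  bilinear, the nontrivial combinations of its coordinates have rank at least `ρ`, `x` and `z` are in ARBITRARY sets `S`
  and `T` with `|S| |T| ≥ P ^ (a + b - ρ + δ)`, `u` and `w` are arbitrary functions (for `δ > 0` fixed);
* the same for `β(x, z) = x z`, `x` and `z` in ARBITRARY subsets of the field of `P ^ R` elements,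
  `|S| |T| ≥ P ^ (R + δ)`;
* polynomials in several variables of degree at most `P ^ (δ / 4)`, all nontrivial combinations of which have a monomial
  with at least two variables, plus arbitrary functions of the single variables, on products of ARBITRARY sets of at
  least `P ^ (1 / 2 + δ)` residues;
* polynomials in one variable of degree at most `P ^ (δ / 4)`, no nontrivial combination of which is constant, on any
  subgroup of the multiplicative group modulo `P` with at least `P ^ (1 / 2 + δ)` elements.

**Theorem.** There are exceptions `E j`, `|E j| = o(size)`, such that for ALL `D`, for large `j` and all vectors `c` of the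
`j`-th family outside of `E j`, the system of forms with the coefficients `c` defines an endomorphism of `ℙ^N` of degree `d`
over `k` which has at most `C(D)` preperiodic points in `ℙ^N(K)` for all number fields `K` containing `k` of degree at
most `D` over `ℚ` (`Bounded`).

New: the families of the coefficients. The exceptional sets are pronull by the starting result `UniformRandomOrbits`; few
members of the families are in such a set by the theorem of the starting library `N384.VF` on vectors of residues; the
estimates of the Fourier coefficients on arbitrary sets are in `U569/APL`.
-/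

set_option autoImplicit false

open MvPolynomial NumberField Filter

namespace Pool.Agent.Results.MP_13bc7b_nt.ArbitrarySets

open Pool.Agent.Results.MP_13bc7b_nt.UniformRandomOrbits (Bounded Exps system)
open Pool.Agent.U569.APL

/-- **Uniform boundedness for endomorphisms with coefficients formed from arbitrary sets.** -/
theorem result (N d : ℕ) (hN : 1 ≤ N) (hd : 2 ≤ d) : ∃ C : ℕ → ℕ,
    ∀ (k : Type) [Field k] [NumberField k] (J : Type) [Fintype J] (ω : Module.Basis J ℤ (𝓞 k)),
      (∀ (τ : ℕ → Type) (s : ∀ j, Finset (τ j)) (v : ∀ j, τ j → (Fin (N + 1) × Exps N d) × J → ℤ), FlatFamilies s v →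
        ∃ E : ∀ j, Finset (τ j), Small s E ∧ ∀ D : ℕ, Outside s E v fun c => Bounded D (C D) (system ω c)) ∧
      Examples ((Fin (N + 1) × Exps N d) × J) := by
  classical
  obtain ⟨C, hC⟩ := Pool.Agent.Results.MP_13bc7b_nt.UniformRandomOrbits.result N d hN hd
  refine ⟨C, fun k _ _ J _ ω => ⟨fun τ s v hs => ?_, examples _⟩⟩
  obtain ⟨E, hE, h⟩ := flat_diag hs
    (fun D : ℕ => {c : (Fin (N + 1) × Exps N d) × J → ℤ | ¬ Bounded D (C D) (system ω c)}) (fun D => (hC k J ω).1 D)
  refine ⟨E, hE, fun D => ?_⟩
  filter_upwards [h D] with j hj i hi hi2
  exact not_not.mp (hj i hi hi2)

end Pool.Agent.Results.MP_13bc7b_nt.ArbitrarySets
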