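import Pool.Agent.U965.ET.Tow
import Pool.Agent.U965.ET.Rad

/-!
# Morton–Silverman over all fields of bounded local degree for towers of exceptional maps

`LocalDegreeLe K D` says that for every prime `p` the field `K` embeds into an extension of `ℚ_p` of
degree at most `D`. Such are the number fields of degree at most `D`, the function fields of degree at most
`D` over `ℚ (t_i : i ∈ ι)` for every countable set of variables, and infinite algebraic extensions of `ℚ`:
the field generated by all `m`-th roots of all rational numbers has this property with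
`D = m ^ (m ^ 3 + 3)` (for `m = 2` this is the compositum of all quadratic fields).

The class `Tower K D d n` of endomorphisms of degree `d` of `n`-dimensional projective space over `K` is
generated as follows.

* On the projective line: the compositions of invertible linear substitutions over `K`, of power maps
  `(x : y) ↦ (x ^ l : y ^ l)` with primes `l > D + 1` and of Dickson maps
  `(x : y) ↦ (D_l (x, a y ^ 2) : y ^ l)` with primes `l > 2 D + 1`, `a ∈ K`.
* The `n`-th symmetric powers of such compositions with `D n` in place of `D`: the endomorphism of the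
  space of binary forms of degree `n` which maps the form with the zeros `P_1, …, P_n` to the form with the
  zeros `g (P_1), …, g (P_n)`.
* With `T` all skew products `(u, z) ↦ (T u, F (u, z))` for which `z ↦ F (u, z)` is, for every `u ≠ 0`, a
  composition of affine maps, powers and Dickson polynomials as above.
* With `T₁`, `T₂` the join `(u, w) ↦ (T₁ u, T₂ w)` (all prime factors of `d` larger than `D + 1`).
* Everything conjugate to these over `K`.

Theorem. For all `D`, `d ≥ 2`, `n` and `r ≥ 1` there are `N ≥ 1` and `M` such that for every field `K` of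
characteristic zero with `LocalDegreeLe K D` and every endomorphism `Φ` of degree `d` of `n`-dimensional
projective space over `K` whose `r`-th iterate is in the class, all `K`-rational preperiodic points of `Φ`
are fixed by the `N`-th iterate and there are at most `M` of them.

In particular the bound holds for number fields of unbounded degree, as long as for every `p` one of the
completions above `p` has degree at most `D` over `ℚ_p`, for instance for all number fields which are
composita of quadratic fields.

Proof. For every finite extension `F / K` and every `p` the field `F` embeds into an extension `E` of `ℚ_p`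
of degree at most `D [F : K]` (a residue field of `E ⊗ F`). The extension of the absolute value of `ℚ_p` to
`E` restricts to a discrete absolute value of `F` whose residue field has at most `p ^ (D [F : K])`
elements: elements with independent residues or with values in different classes modulo `p ^ ℤ` are
independent over `ℚ_p`. This is all that the theorem on the projective line (project UR of helper236 in the
library, with parts by helpers 56, 78, 87, 106, 160, 222, 278, 281, 318, 360, 514, 622, 727, 803, 823, 878;
`main6K`, `mainSym`, and the steps `bd_ext`, `bd_join`) needs. The theorem for towers follows by induction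
on the dimension. For the radicals: by Hensel's lemma the group of units of `ℤ_p` modulo `m`-th powers is
generated by at most `m ^ 3 + 1` integers.
-/

set_option autoImplicit false

open Polynomial

namespace Pool.Agent.Results.MP_13bc7b_nt.BoundedLocalDegree

/-- For every prime `p` the field `K` embeds into an extension of `ℚ_p` of degree at most `D`. -/
def LocalDegreeLe (K : Type) [Field K] (D : ℕ) : Prop :=
  ∀ (p : ℕ) [Fact p.Prime], ∃ (E : Type) (_ : Field E) (_ : Algebra ℚ_[p] E),
    FiniteDimensional ℚ_[p] E ∧ Module.finrank ℚ_[p] E ≤ D ∧ Nonempty (K →+* E)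

/-- Homogeneous self-maps `g` of `E ^ 2` of degree `d` (endomorphisms of the projective line): compositions
of invertible linear maps over `K`, of power maps with prime exponents larger than `D + 1` and of Dickson
maps over `K` with prime degrees larger than `2 D + 1`. -/
inductive Line (K : Type) {E : Type} [Field K] [Field E] [Algebra K E] (D : ℕ) : ℕ → (E × E → E × E) → Prop
  | linear (A : Matrix (Fin 2) (Fin 2) K) (hA : A.det ≠ 0) :
      Line K D 1 (fun x => (algebraMap K E (A 0 0) * x.1 + algebraMap K E (A 0 1) * x.2,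
        algebraMap K E (A 1 0) * x.1 + algebraMap K E (A 1 1) * x.2))
  | power (l : ℕ) (hl : l.Prime) (h : D + 1 < l) : Line K D l (fun x => (x.1 ^ l, x.2 ^ l))
  | dickson (l : ℕ) (a : K) (hl : l.Prime) (h : 2 * D + 1 < l) :
      Line K D l (fun x => ((Polynomial.dickson 1 (algebraMap K E a * x.2 ^ 2) l).eval x.1, x.2 ^ l))
  | comp (d e : ℕ) (f g : E × E → E × E) (hf : Line K D d f) (hg : Line K D e g) :
      Line K D (d * e) (f ∘ g)

/-- Self-maps of the affine line of degree `d`: compositions of affine maps, of power maps with prime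
exponents larger than `D + 1` and of Dickson polynomials of prime degrees larger than `2 D + 1`. -/
inductive Fibre {K : Type} [Field K] (D : ℕ) : ℕ → (K → K) → Prop
  | affine (c e : K) (hc : c ≠ 0) : Fibre D 1 (fun z => c * z + e)
  | power (l : ℕ) (hl : l.Prime) (h : D + 1 < l) : Fibre D l (fun z => z ^ l)
  | dickson (l : ℕ) (a : K) (hl : l.Prime) (h : 2 * D + 1 < l) :
      Fibre D l (fun z => (Polynomial.dickson 1 a l).eval z)
  | comp (d e : ℕ) (f g : K → K) (hf : Fibre D d f) (hg : Fibre D e g) : Fibre D (d * e) (f ∘ g)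

/-- The coefficients of the binary form `∏ (s_i X - r_i Y)` with the zeros `(r_i : s_i)`. -/
noncomputable def form {E : Type} [Field E] {n : ℕ} (p : Fin n → E × E) : Fin (n + 1) → E :=
  fun j => (∏ i, (C (p i).2 * X - C (p i).1)).coeff j

/-- The tuple `Φ` of forms over `K` is the `n`-th symmetric power of `g`: it maps the form with the zeros
`p_i` to a multiple of the form with the zeros `g (p_i)`. -/
def IsSymmetricPower {K E : Type} [Field K] [Field E] [Algebra K E] {n : ℕ} (g : E × E → E × E)
    (Φ : Fin (n + 1) → MvPolynomial (Fin (n + 1)) K) : Prop :=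
  ∀ p : Fin n → E × E, (∀ i, p i ≠ 0) → ∃ c : E, c ≠ 0 ∧
    (fun j => MvPolynomial.aeval (form p) (Φ j)) = c • form (fun i => g (p i))

/-- The value of a tuple of forms at a vector. -/
noncomputable def value {K : Type} [Field K] {n : ℕ}
    (Φ : Fin (n + 1) → MvPolynomial (Fin (n + 1)) K) (v : Fin (n + 1) → K) : Fin (n + 1) → K :=
  fun j => MvPolynomial.eval v (Φ j)

/-- The class of homogeneous self-maps of `K ^ (n + 1)` of degree `d` (endomorphisms of `n`-dimensional
projective space over `K`): dimension zero (`point`); the maps `Line` (`line`); symmetric powers (`symm`);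
skew products over members of the class with fibre maps of the class `Fibre` (`skew`); joins of two members
(`join`); conjugates (`conj`). -/
inductive Tower (K : Type) [Field K] (D d : ℕ) :
    (n : ℕ) → ((Fin (n + 1) → K) → (Fin (n + 1) → K)) → Prop
  | point (a : K) (ha : a ≠ 0) : Tower K D d 0 (fun v _ => a * v 0 ^ d)
  | line (T : (Fin (1 + 1) → K) → (Fin (1 + 1) → K)) (g : K × K → K × K) (hg : Line K D d g)
      (hT : ∀ v, (T v 0, T v 1) = g (v 0, v 1)) : Tower K D d 1 T
  | symm (n : ℕ) (hn : 1 ≤ n) (Φ : Fin (n + 1) → MvPolynomial (Fin (n + 1)) K)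
      (hΦ : ∀ j, (Φ j).IsHomogeneous d)
      (g : AlgebraicClosure K × AlgebraicClosure K → AlgebraicClosure K × AlgebraicClosure K)
      (hg : Line K (D * n) d g) (h : IsSymmetricPower g Φ) : Tower K D d n (value Φ)
  | skew (n : ℕ) (T : (Fin (n + 1) → K) → (Fin (n + 1) → K)) (F : (Fin (n + 1 + 1) → K) → K)
      (hT : Tower K D d n T) (hF : ∀ (a : K) (x : Fin (n + 1 + 1) → K), F (a • x) = a ^ d * F x)
      (hfib : ∀ u : Fin (n + 1) → K, u ≠ 0 → Fibre D d (fun z : K => F (Fin.snoc u z)))
      (hF1 : F (Fin.snoc 0 1) ≠ 0) :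
      Tower K D d (n + 1) (fun x => Fin.snoc (T (Fin.init x)) (F x))
  | join (m n : ℕ) (T₁ : (Fin (m + 1) → K) → (Fin (m + 1) → K))
      (T₂ : (Fin (n + 1) → K) → (Fin (n + 1) → K)) (h₁ : Tower K D d m T₁) (h₂ : Tower K D d n T₂)
      (hd : ∀ l : ℕ, l.Prime → l ∣ d → D + 1 < l) : Tower K D d (m + 1 + n) (fun x =>
        (Fin.append (T₁ fun i => x (Fin.castAdd (n + 1) i)) (T₂ fun i => x (Fin.natAdd (m + 1) i)) :
          Fin (m + 1 + (n + 1)) → K))
  | conj (n : ℕ) (T : (Fin (n + 1) → K) → (Fin (n + 1) → K))
      (A : Matrix (Fin (n + 1)) (Fin (n + 1)) K) (hT : Tower K D d n T) (hA : A.det ≠ 0) :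
      Tower K D d n (fun v => A⁻¹.mulVec (T (A.mulVec v)))

/-- The `K`-rational preperiodic points of a tuple of forms in projective space. -/
def preperiodic {K : Type} [Field K] {n : ℕ} (Φ : Fin (n + 1) → MvPolynomial (Fin (n + 1)) K) :
    Set (Projectivization K (Fin (n + 1) → K)) :=
  {P | ∃ m k : ℕ, m < k ∧ ∃ c : K, c ≠ 0 ∧ (value Φ)^[k] P.rep = c • (value Φ)^[m] P.rep}

open Pool.Agent.N236.UR Pool.Agent.N236.UR.Sym Pool.Agent.U965.ET
open scoped LinearAlgebra.Projectivization

section comparison

theorem actP_comp {E : Type} [Field E] {f g : E × E → E × E} {m k : ℕ} (hf : Hom f m) (hg : Hom g k) :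
    actP (f ∘ g) = actP f ∘ actP g := by
  funext P
  induction P using Projectivization.ind with
  | h x hx =>
    have hfg : Hom (f ∘ g) (k * m) := hf.comp hg
    rw [Function.comp_apply, actP_mk hg hx (hg.2 x hx), actP_mk hf (hg.2 x hx) (hf.2 _ (hg.2 x hx)),
      actP_mk hfg hx (hfg.2 x hx)]
    rfl

theorem line_conv {K E : Type} [Field K] [Field E] [Algebra K E] {D d : ℕ} {g : E × E → E × E}
    (h : Line K D d g) : Hom g d ∧ ExcP K E D (actP g) d := by
  induction h with
  | linear A hA => exact ⟨hom_lin (det_map _ hA), ExcP.mobius A hA⟩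
  | power l hl h => exact ⟨hom_pw hl.ne_zero, ExcP.power l hl h⟩
  | dickson l a hl h => exact ⟨hom_dkm hl.ne_zero _, ExcP.dickson l a hl h⟩
  | comp d e f g hf hg ihf ihg =>
    refine ⟨?_, ?_⟩
    · rw [mul_comm d e]
      exact ihf.1.comp ihg.1
    · rw [actP_comp ihf.1 ihg.1]
      exact ExcP.comp _ _ _ _ ihf.2 ihg.2

variable {K : Type} [Field K] {D d n : ℕ}

theorem fibre_conv {f : K → K} (h : Fibre D d f) :
    ∃ φ : ℙ K (K × K) → ℙ K (K × K), ExcP K K D φ d ∧ ∀ z : K, φ (aff z) = aff (f z) := by
  induction h with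
  | affine c e hc =>
    have hA : (!![c, e; 0, 1] : Matrix (Fin 2) (Fin 2) K).det ≠ 0 := by
      rw [Matrix.det_fin_two_of]
      simpa using hc
    refine ⟨_, ExcP.mobius _ hA, ?_⟩
    intro z
    have h1 : lin ((!![c, e; 0, 1] : Matrix (Fin 2) (Fin 2) K).map (algebraMap K K)) ((z : K), (1 : K)) =
        (c * z + e, 1) := by
      unfold lin
      simp
    unfold aff
    rw [actP_mk (hom_lin (det_map _ hA)) (one_ne' z) (by rw [h1]; exact one_ne' _)]
    simp only [h1]
  | power l hl h =>
    refine ⟨_, ExcP.power l hl h, ?_⟩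
    intro z
    have h1 : pw l ((z : K), (1 : K)) = (z ^ l, 1) := by
      unfold pw
      simp
    unfold aff
    rw [actP_mk (hom_pw hl.ne_zero) (one_ne' z) (by rw [h1]; exact one_ne' _)]
    simp only [h1]
  | dickson l a hl h =>
    refine ⟨_, ExcP.dickson l a hl h, ?_⟩
    intro z
    have h1 : dkm l (algebraMap K K a) ((z : K), (1 : K)) = ((Polynomial.dickson 1 a l).eval z, 1) := by
      unfold dkm
      simp
    unfold aff
    rw [actP_mk (hom_dkm hl.ne_zero _) (one_ne' z) (by rw [h1]; exact one_ne' _)]
    simp only [h1]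
  | comp d e f g hf hg ihf ihg =>
    obtain ⟨φ, h1, h2⟩ := ihf
    obtain ⟨ψ, h3, h4⟩ := ihg
    exact ⟨φ ∘ ψ, ExcP.comp _ _ _ _ h1 h3, fun z => by
      rw [Function.comp_apply, h4, h2, Function.comp_apply]⟩

theorem sym_conv {E : Type} [Field E] [Algebra K E] {g : E × E → E × E} (hg : Hom g d)
    {Φ : Fin (n + 1) → MvPolynomial (Fin (n + 1)) K} (h : IsSymmetricPower g Φ) : IsSym (actP g) Φ := by
  intro p
  obtain ⟨c, hc, h1⟩ := h (fun i => (p i).rep) (fun i => (p i).rep_nonzero)
  have h2 : ∀ i, ∃ a : E, a ≠ 0 ∧ g (p i).rep = a • (actP g (p i)).rep := by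
    intro i
    have h3 : actP g (p i) = Projectivization.mk E (g (p i).rep) (hg.2 _ (p i).rep_nonzero) := by
      conv_lhs => rw [← (p i).mk_rep]
      exact actP_mk hg _ _
    have h4 := Projectivization.mk_rep (actP g (p i))
    rw [h3] at h4
    rw [Projectivization.mk_eq_mk_iff'] at h4
    obtain ⟨a, ha⟩ := h4
    have ha0 : a ≠ 0 := by
      rintro rfl
      rw [zero_smul] at ha
      exact (Projectivization.rep_nonzero _) ha.symm
    refine ⟨a⁻¹, inv_ne_zero ha0, ?_⟩
    rw [h3, ← ha, smul_smul, inv_mul_cancel₀ ha0, one_smul]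
  choose a ha ha' using h2
  refine ⟨c * ∏ i, a i, mul_ne_zero hc (Finset.prod_ne_zero_iff.2 fun i _ => ha i), ?_⟩
  have h5 : form (fun i => g (p i).rep) = (∏ i, a i) • ptP (fun i => actP g (p i)) := pt_of_prop ha'
  rw [h5, smul_smul] at h1
  exact h1

theorem tower_conv {T : (Fin (n + 1) → K) → (Fin (n + 1) → K)} (h : Tower K D d n T) :
    Tow K D d n T := by
  induction h with
  | point a ha => exact Tow.point a ha
  | line T g hg hT =>
    obtain ⟨h1, h2⟩ := line_conv hg
    have hTh : HomV T d := by
      refine ⟨fun a v => ?_, fun v hv h0 => ?_⟩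
      · have h3 : (T (a • v) 0, T (a • v) 1) = a ^ d • (T v 0, T v 1) := by
          rw [hT, hT, ← h1.1]
          rfl
        funext j
        fin_cases j
        · exact congrArg Prod.fst h3
        · exact congrArg Prod.snd h3
      · apply h1.2 _ (pair_ne hv)
        rw [← hT, h0]
        rfl
    refine Tow.line T (actP g) hTh h2 ?_
    intro v hv hTv
    rw [actP_mk h1 hv (by rw [← hT]; exact hTv)]
    congr 1
    exact (hT v).symm
  | symm n hn Φ hΦ g hg h =>
    obtain ⟨h1, h2⟩ := line_conv hg
    exact Tow.symm n hn Φ hΦ (actP g) h2 (sym_conv h1 h)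
  | skew n T F hT hF hfib hF1 ih =>
    exact Tow.ext n T F ih hF ⟨fun u hu => fibre_conv (hfib u hu), hF1⟩
  | join m n T₁ T₂ h₁ h₂ hd ih₁ ih₂ => exact Tow.join m n T₁ T₂ ih₁ ih₂ hd
  | conj n T A hT hA ih =>
    exact Tow.conj n T _ A A⁻¹ ih (Matrix.mul_nonsing_inv A (isUnit_iff_ne_zero.mpr hA)) fun v => rfl

end comparison

theorem result :
    (∀ D d n r : ℕ, 2 ≤ d → 1 ≤ r → ∃ N M : ℕ, 1 ≤ N ∧
      ∀ (K : Type) [Field K] [CharZero K], LocalDegreeLe K D →
      ∀ Φ : Fin (n + 1) → MvPolynomial (Fin (n + 1)) K, (∀ j, (Φ j).IsHomogeneous d) →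
        Tower K D (d ^ r) n (value Φ)^[r] →
        (∀ P ∈ preperiodic Φ, ∃ c : K, c ≠ 0 ∧ (value Φ)^[N] P.rep = c • P.rep) ∧
        (preperiodic Φ).Finite ∧ (preperiodic Φ).ncard ≤ M) ∧
    (∀ (K : Type) [Field K] [NumberField K], LocalDegreeLe K (Module.finrank ℚ K)) ∧
    (∀ (ι : Type) [Countable ι] (K : Type) [Field K] [Algebra (FractionRing (MvPolynomial ι ℚ)) K]
      [FiniteDimensional (FractionRing (MvPolynomial ι ℚ)) K],
      LocalDegreeLe K (Module.finrank (FractionRing (MvPolynomial ι ℚ)) K)) ∧
    (∀ m : ℕ, 1 ≤ m → LocalDegreeLe (IntermediateField.adjoin ℚ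
      {x : AlgebraicClosure ℚ | ∃ a : ℚ, x ^ m = algebraMap ℚ (AlgebraicClosure ℚ) a})
      (m ^ (m ^ 3 + 3))) := by
  refine ⟨?_, fun K _ _ => locDeg_nf K le_rfl, fun ι _ K _ _ _ => locDeg_ff ι K le_rfl,
    fun m hm => locDeg_rad m hm⟩
  intro D d n r hd hr
  obtain ⟨N, M, hN, H⟩ := tow_root D d hd n r hr
  refine ⟨N, M, hN, ?_⟩
  intro K _ _ hK Φ hΦ hT
  have h := H K (LocDeg.plAll hK) (value Φ) (fun a v => by
    funext j
    exact eval_smul_hom (hΦ j) a v) (tower_conv hT)
  exact ⟨fun P hP => h.1 P.rep P.rep_nonzero hP, h.2⟩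

end Pool.Agent.Results.MP_13bc7b_nt.BoundedLocalDegree
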