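import Pool.Agent.Results.MP_13bc7b_nt.UniformRandomOrbits
import Pool.Agent.U125.NO.Seq

/-!
# Uniform boundedness of preperiodic points along every normal orbit of coefficients

Definitions of the starting result `UniformRandomOrbits`: `system ω c` is the system of `N + 1` forms of
degree `d` in `N + 1` variables over the ring of integers of `k` whose coefficients have the coordinates `c`
with respect to the integral basis `ω`. `Bounded D C F`: `F` defines an endomorphism of `ℙ^N` over `k`, and for
all number fields `K` containing `k` of degree at most `D` over `ℚ` it has at most `C` preperiodic points in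
`ℙ^N(K)`.

**Theorem.** There is a function `C` with the following property. Let `k` be a number field, `ω` an integral
basis, and let `x_0, x_1, …` be a normal orbit in `ℤ^κ` (`NormalOrbit`): the orbit of an integral vector
under a finite family of integral affine maps along ANY normal sequence of indices, the family being wide
(for all `q` prime to some `q₀` the maps are bijective modulo `q`, and the vector can be moved to at least the
proportion `ε > 0`, not depending on `q`, of all vectors modulo `q`). There is ONE set `E` of times of density
zero such that for ALL `N ≥ 1`, `d ≥ 2`, all injective choices of coordinates of the orbit as the coordinates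
of the coefficients, and ALL `D` the endomorphism of `ℙ^N` of degree `d` at the time `n` has at most
`C(N, d, D)` preperiodic points in `ℙ^N(K)`, for all number fields `K` containing `k` with `[K : ℚ] ≤ D`, for
all but finitely many `n ∉ E`. The function `C` depends neither on `k` nor on the orbit.

Examples (second part): (1) `x_n = (⌊b ^ n ξ_l⌋)_l` for ANY vector `ξ` of real numbers which is normal to the
base `b ≥ 2`; (2) the orbit of any vector `v ≠ 0` along ANY normal word in matrices which generate the special
linear group modulo all `q` prime to some `q₀` (generators of a thin group); (3) vectors of integers whose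
digits are chosen from a restricted set of vectors.

The starting result `UniformRandomOrbits` has the orbits of thin groups in the space of the coefficients of one
`N`, `d` for ALMOST ALL words.

Proof. The exceptional vectors form a pronull set (starting library `N891.OYU.uni`). Normal orbits visit a
pronull set only at times of density zero (engine `Pool.Agent.U125.NO` of helper125), and there are countably
many conditions.
-/

set_option autoImplicit false

namespace Pool.Agent.Results.MP_13bc7b_nt.NormalSequences

open NumberField Filter Topology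
open Pool.Agent.U125.NO (NormalOrbit Examples examples)
open Pool.Agent.Results.MP_13bc7b_nt.UniformRandomOrbits (Exps Bounded system system_eq selfMap)

/-- The set `E` of natural numbers has density zero. -/
def Null (E : Set ℕ) : Prop :=
  Tendsto (fun N : ℕ => (({m : ℕ | m < N ∧ m ∈ E}.ncard : ℕ) : ℝ) / (N : ℝ)) atTop (𝓝 0)

/-- Dimensions, degrees, choices of coordinates and bounds for the degree. -/
def Cond (J κ : Type) : Type :=
  (Σ Nd : ℕ × ℕ, {f : (Fin (Nd.1 + 1) × Exps Nd.1 Nd.2) × J → κ // 2 ≤ Nd.2 ∧ Function.Injective f}) × ℕ

instance (J κ : Type) [Finite J] [Finite κ] : Countable (Cond J κ) := by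
  unfold Cond
  infer_instance

theorem result :
    (∃ C : ℕ → ℕ → ℕ → ℕ, ∀ (k : Type) [Field k] [NumberField k] (J : Type) [Fintype J] [DecidableEq J]
      (ω : Module.Basis J ℤ (𝓞 k)) (κ : Type) [Fintype κ] [DecidableEq κ] (x : ℕ → κ → ℤ),
      NormalOrbit x → ∃ E : Set ℕ, Null E ∧ ∀ N d : ℕ, 1 ≤ N → 2 ≤ d →
        ∀ f : (Fin (N + 1) × Exps N d) × J → κ, Function.Injective f → ∀ D : ℕ,
          {n : ℕ | n ∉ E ∧ ¬ Bounded D (C N d D) (system ω (fun q => x n (f q)))}.Finite) ∧
    ∀ (κ : Type) [Fintype κ] [DecidableEq κ], Examples κ := by
  refine ⟨?_, fun κ _ _ => examples κ⟩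
  have hC' : ∀ N d D : ℕ, ∃ C : ℕ, 2 ≤ d → ∀ (k : Type) [Field k] [NumberField k] (J : Type)
      [Fintype J] [DecidableEq J] (ω : Module.Basis J ℤ (𝓞 k)),
      Pool.Agent.N24.RW.ProNull {c : (Fin (N + 1) × Exps N d) × J → ℤ |
        ¬ Bounded D C (system ω c)} := by
    intro N d D
    by_cases hd : 2 ≤ d
    · obtain ⟨C, hC⟩ := Pool.Agent.N891.OYU.uni N d D hd
      refine ⟨C, fun _ k _ _ J _ _ ω => ?_⟩
      refine (Pool.Agent.N24.RW.clo _).1 _ _ ?_ (hC (𝓞 k) J ω)
      intro c hc hB
      apply hc
      rw [system_eq]
      refine ⟨?_, ?_⟩
      · exact (hB (AlgebraicClosure k)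
          ((algebraMap k (AlgebraicClosure k)).comp (algebraMap (𝓞 k) k))).1
      · intro K _ _ _ hK
        exact (hB K ((algebraMap k K).comp (algebraMap (𝓞 k) k))).2 inferInstance hK
    · exact ⟨0, fun h => absurd h hd⟩
  choose C hC using hC'
  refine ⟨C, ?_⟩
  intro k _ _ J _ _ ω κ _ _ x hx
  obtain ⟨E, hE1, hE2⟩ := hx.avoids.diag (K := Cond J κ)
    (fun a y => ¬ Bounded a.2 (C a.1.1.1 a.1.1.2 a.2) (system ω (fun q => y (a.1.2.1 q))))
    (fun a => by
      obtain ⟨⟨⟨N, d⟩, f, hd, hf⟩, D⟩ := a
      exact (Pool.Agent.N24.RW.clo ((Fin (N + 1) × Exps N d) × J)).2.2.2.2 κ f hf _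
        (hC N d D hd k J ω))
  exact ⟨E, hE1, fun N d _ hd f hf D => hE2 (⟨(N, d), f, hd, hf⟩, D)⟩

end Pool.Agent.Results.MP_13bc7b_nt.NormalSequences
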