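import Pool.Agent.U934.GF.Fam

/-!
# MP_13bc7b_nt: one bound for the members of all non-isotrivial families

The question asks for a bound for the number of the preperiodic points of the endomorphisms of
`ℙ^N` over number fields which depends only on the degrees.  The starting results `GenericCount` and
`ThinFamilies` show for every algebraic family of endomorphisms over a number field `k` with
parameters `t = (t_1, …, t_m)` that almost all members have exactly as many preperiodic points of
degree at most `B` over `k` as the generic member, a finite number which depends on the family (and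
on `k`).

Here we prove for all families of symmetric powers of endomorphisms of `ℙ^1` which are not
isotrivial (for `N = 1` these are all non-isotrivial families of endomorphisms of `ℙ^1`) that this
number is at most `κ(d, N B g) ^ N`, where the function `κ` is universal: it does not depend on the
number field `k` and its degree, on the number of parameters and on the family.  So the bound of the
question, with a constant which does not even depend on the degree of the field, is true for

* 100% of the rational members of each of these families, ordered by boxes, and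
* along all equidistributed and thin sequences of parameters: there is one set `S` of positive
  integers of relative density zero, such that for ALL number fields, integral bases, families, `N`
  and `d` the member at `v(n)` satisfies the bound for all but finitely many `n` outside `S`.

Isotriviality is meant with respect to any field `E` between `k` and `K = k(t_1, …, t_m)` such that
`K` is a function field of one variable over `E`, and `g` is a bound for its gonality; for the field
`E = k(t_j : j ≠ i)` one has `g = 1`.

Proof.  The generic member is a map over a function field of one variable over `E`.  Its preperiodic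
points in `ℙ^N` of degree at most `B` have coordinates in a field of gonality at most `B g`, and the
zeros of the corresponding binary form are preperiodic points of `f` in fields of gonality at most
`N B g`.  The orbits in such fields are bounded in terms of `d` and `N B g` (strong uniform
boundedness over function fields, `Pool.Agent.Q103.FS`), so all these zeros are in one finite set of
at most `κ(d, N B g)` points.
-/

set_option autoImplicit false

namespace Pool.Agent.Results.MP_13bc7b_nt.UniformNonIsotrivialFamilies

open NumberField Filter Topology Polynomial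
open Pool.Agent.Results.MP_13bc7b_nt.GenericCount (IsMorphism preper generic special RF image
  AlmostAll)
open Pool.Agent.Results.MP_13bc7b_nt.ThinFamilies (Equidistributed NullIn vector)

/-- The field `K` over `E` is a finite extension of `E(t)` of degree at most `g` for some `t`
transcendental over `E`: it is the function field of a curve over `E` of gonality at most `g`. -/
def GonalityLE (E K : Type) [Field E] [Field K] [Algebra E K] (g : ℕ) : Prop :=
  ∃ t : K, Transcendental E t ∧ FiniteDimensional (IntermediateField.adjoin E {t}) K ∧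
    Module.finrank (IntermediateField.adjoin E {t}) K ≤ g

/-- The subfield `k(t_j : j ≠ i)` of the field `k(t_1, …, t_m)`. -/
noncomputable def others (k : Type) [Field k] {m : ℕ} (i : Fin m) : Subfield (RF k m) :=
  (IntermediateField.adjoin k {x : RF k m | ∃ j, j ≠ i ∧
    x = algebraMap (MvPolynomial (Fin m) k) (RF k m) (MvPolynomial.X j)}).toSubfield

/-- The endomorphism `f` of `ℙ^1` of degree `d` over `K` is isotrivial over `E`: for some invertible
matrix `A` over the algebraic closure of `K`, the coefficients of `A⁻¹ ∘ f ∘ A` are algebraic over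
`E`. -/
def IsotrivialOver (E : Type) [Field E] {K : Type} [Field K] [Algebra E K] (d : ℕ)
    (f : Fin 2 → MvPolynomial (Fin 2) K) : Prop :=
  ∃ (A : Matrix (Fin 2) (Fin 2) (AlgebraicClosure K))
    (f' : Fin 2 → MvPolynomial (Fin 2) (AlgebraicClosure K)),
    A.det ≠ 0 ∧ (∀ i, (f' i).IsHomogeneous d) ∧ (∀ i s, IsAlgebraic E ((f' i).coeff s)) ∧
    ∀ v : Fin 2 → AlgebraicClosure K, v ≠ 0 → ∃ c : AlgebraicClosure K, c ≠ 0 ∧
      image f (A.mulVec v) = c • A.mulVec (fun i => MvPolynomial.eval v (f' i))

/-- The coefficients of the product of the linear forms `p_{i,0} + p_{i,1} X`, `i = 1, …, N`: the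
image of the `N` points `p_i` of `ℙ^1` in `ℙ^N`, the `N`-th symmetric power of `ℙ^1`. -/
noncomputable def point {A : Type} [Field A] {N : ℕ} (p : Fin N → Fin 2 → A) : Fin (N + 1) → A :=
  fun j => (∏ i, (C (p i 0) + C (p i 1) * X)).coeff j

/-- The endomorphism `Φ` of `ℙ^N` over `K` is the `N`-th symmetric power
`{p_1, …, p_N} ↦ {f(p_1), …, f(p_N)}` of an endomorphism `f` of degree `d` of `ℙ^1` over `K`
which is not isotrivial over `E`. -/
def IsPowerOfNonIsotrivial (E : Type) [Field E] {K : Type} [Field K] [Algebra E K] (d : ℕ) {N : ℕ}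
    (Φ : Fin (N + 1) → MvPolynomial (Fin (N + 1)) K) : Prop :=
  ∃ f : Fin 2 → MvPolynomial (Fin 2) K, (∀ i, (f i).IsHomogeneous d) ∧ IsMorphism f ∧
    ¬ IsotrivialOver E d f ∧
    ∀ p : Fin N → Fin 2 → AlgebraicClosure K, image Φ (point p) = point fun i => image f (p i)

/-- The forms `Φ_0, …, Φ_N ∈ k[t_1, …, t_m][x_0, …, x_N]`, `N ≥ 1`, are homogeneous of degree
`d ≥ 2` in `x` and define an endomorphism of `ℙ^N` over `K = k(t_1, …, t_m)`, and for some subfield
`E` of `K` such that `K` is a function field of one variable over `E` of gonality at most `g`, this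
endomorphism is the `N`-th symmetric power of an endomorphism of degree `d` of `ℙ^1` over `K` which
is not isotrivial over `E`. -/
def IsNonIsotrivialFamily {k : Type} [Field k] {N m : ℕ} (d g : ℕ)
    (Φ : Fin (N + 1) → MvPolynomial (Fin (N + 1)) (MvPolynomial (Fin m) k)) : Prop :=
  1 ≤ N ∧ 2 ≤ d ∧ (∀ i, (Φ i).IsHomogeneous d) ∧ IsMorphism (generic Φ) ∧
    ∃ E : Subfield (RF k m), GonalityLE E (RF k m) g ∧ IsPowerOfNonIsotrivial E d (generic Φ)

/-- `v_0 ≠ 0`, and the member of the family `Φ` at `t = (v_1 / v_0, …, v_m / v_0)` is an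
endomorphism of `ℙ^N` with at most `κ(d, N B g) ^ N` preperiodic points of degree at most `B`
over `k`. -/
def HasFewPreperiodic (κ : ℕ → ℕ → ℕ) {k : Type} [Field k] {N m : ℕ} (d g B : ℕ)
    (Φ : Fin (N + 1) → MvPolynomial (Fin (N + 1)) (MvPolynomial (Fin m) k))
    (v : Fin (m + 1) → 𝓞 k) : Prop :=
  v 0 ≠ 0 ∧ IsMorphism (special v Φ) ∧
    (preper (special v Φ) B).encard ≤ ((κ d (N * (B * g)) ^ N : ℕ) : ℕ∞)

/-- There is a function `κ` such that the following holds.

(1) Let `k` be a number field (of any degree) with an integral basis `ω`, and let `Φ` be a family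
with `m` parameters of `N`-th symmetric powers of endomorphisms of degree `d` of `ℙ^1` over `k`
which is not isotrivial over a field `E` such that `k(t_1, …, t_m)` has gonality at most `g` over
`E`. Then for all `B` for 100% of the vectors `(v_0, …, v_m)` of integers of `k`, `v_0 ≠ 0` and the
member of the family at `t = (v_1 / v_0, …, v_m / v_0)` is an endomorphism of `ℙ^N` with at most
`κ(d, N B g) ^ N` preperiodic points of degree at most `B` over `k`.

(2) Let `x_{i j}(n)` be sequences of integers of which every finite number is jointly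
equidistributed modulo all integers over subsets `S₁(M)` and over subsets `S₂(M)` of `(M, 2 M]`,
`M → ∞`. Then there is one set `S` of relative density zero in the sets `S₁(M)` and in the
sets `S₂(M)` such that for all number fields `k ⊂ ℂ`, all integral bases `ω`, all families `Φ` as in
(1) and all `B`: for all but finitely many `n` outside `S` the member of the family at the vector
`v(n)`, `v_l(n) = ∑_j x_{l j}(n) ω_j`, is an endomorphism of `ℙ^N` with at most `κ(d, N B g) ^ N`
preperiodic points of degree at most `B` over `k`.

(3) For `E = k(t_j : j ≠ i)` the gonality is at most `g = 1`. -/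
theorem result : ∃ κ : ℕ → ℕ → ℕ,
    (∀ (k : Type) [Field k] [NumberField k] (J : Type) [Fintype J]
      (ω : Module.Basis J ℤ (𝓞 k)) (N d m g : ℕ)
      (Φ : Fin (N + 1) → MvPolynomial (Fin (N + 1)) (MvPolynomial (Fin m) k)),
      IsNonIsotrivialFamily d g Φ → ∀ B : ℕ, AlmostAll ω m {v | HasFewPreperiodic κ d g B Φ v}) ∧
    (∀ (x : ℕ → ℕ → ℕ → ℤ) (S₁ S₂ : ℕ → Finset ℕ), (∀ M, S₁ M ⊆ Finset.Ioc M (2 * M)) →
      (∀ M, S₂ M ⊆ Finset.Ioc M (2 * M)) → Equidistributed S₁ x → Equidistributed S₂ x →
      ∃ S : Set ℕ, NullIn S₁ S ∧ NullIn S₂ S ∧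
        ∀ (k : Subfield ℂ) [NumberField k] (r : ℕ) (ω : Module.Basis (Fin r) ℤ (𝓞 k))
          (N d m g : ℕ) (Φ : Fin (N + 1) → MvPolynomial (Fin (N + 1)) (MvPolynomial (Fin m) k)),
          IsNonIsotrivialFamily d g Φ → ∀ B : ℕ,
            {n : ℕ | n ∉ S ∧ ¬ HasFewPreperiodic κ d g B Φ (vector ω x m n)}.Finite) ∧
    (∀ (k : Type) [Field k] (m : ℕ) (i : Fin m), GonalityLE (others k i) (RF k m) 1) := by
  obtain ⟨κ, hκ⟩ := Pool.Agent.U934.GF.sym_bound
  have hE : ∀ (k : Type) [Field k] [NumberField k] (m : ℕ) (E : Subfield (RF k m)),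
      CharZero E := by
    intro k _ _ m E
    have hcz0 : CharZero (RF k m) :=
      charZero_of_injective_algebraMap (R := k) (algebraMap k _).injective
    constructor
    intro a b hab
    have := congrArg (algebraMap E (RF k m)) hab
    rw [map_natCast, map_natCast] at this
    exact_mod_cast this
  have hgen : ∀ (k : Type) [Field k] [NumberField k] (N d m g : ℕ)
      (Φ : Fin (N + 1) → MvPolynomial (Fin (N + 1)) (MvPolynomial (Fin m) k)),
      IsNonIsotrivialFamily d g Φ → ∀ B : ℕ,
      (preper (generic Φ) B).encard ≤ ((κ d (N * (B * g)) ^ N : ℕ) : ℕ∞) := by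
    intro k _ _ N d m g Φ hF B
    obtain ⟨hN, hd, hΦ, hmor, E, hg, f, hf1, hf2, hiso, hs⟩ := hF
    have hcz := hE k m E
    exact hκ E (RF k m) g hg N d B hN hd f hf1 hf2 hiso (generic Φ)
      (fun i => (hΦ i).map _) hmor hs
  refine ⟨κ, ?_, ?_, ?_⟩
  · intro k _ _ J _ ω N d m g Φ hF B
    have hb := hgen k N d m g Φ hF B
    obtain ⟨hN, hd, hΦ, hmor, -⟩ := hF
    have h := (Pool.Agent.Results.MP_13bc7b_nt.GenericCount.result k J ω N d hd m Φ hΦ hmor B).2
    unfold Pool.Agent.Results.MP_13bc7b_nt.GenericCount.AlmostAll at h ⊢
    have hev : ∀ᶠ H : ℕ in atTop, (1 / 2 : ℝ) <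
        (({v | v ∈ Pool.Agent.Results.MP_13bc7b_nt.GenericCount.box ω m H ∧
          v ∈ {v | v 0 ≠ 0 ∧ IsMorphism (special v Φ) ∧
            (preper (special v Φ) B).encard = (preper (generic Φ) B).encard}}.ncard : ℝ) /
          ((Pool.Agent.Results.MP_13bc7b_nt.GenericCount.box ω m H).ncard : ℝ)) :=
      h.eventually_const_lt (by norm_num)
    have hfin : ∀ᶠ H : ℕ in atTop,
        (Pool.Agent.Results.MP_13bc7b_nt.GenericCount.box ω m H).Finite := by
      filter_upwards [hev] with H hH
      have hne : (Pool.Agent.Results.MP_13bc7b_nt.GenericCount.box ω m H).ncard ≠ 0 := by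
        intro h0
        rw [h0, Nat.cast_zero, div_zero] at hH
        norm_num at hH
      exact Set.finite_of_ncard_ne_zero hne
    refine tendsto_of_tendsto_of_tendsto_of_le_of_le' h tendsto_const_nhds ?_ ?_
    · filter_upwards [hfin] with H hH
      refine div_le_div_of_nonneg_right ?_ (Nat.cast_nonneg _)
      have h1 := Set.ncard_le_ncard (s := {v | v ∈
          Pool.Agent.Results.MP_13bc7b_nt.GenericCount.box ω m H ∧
          v ∈ {v | v 0 ≠ 0 ∧ IsMorphism (special v Φ) ∧
            (preper (special v Φ) B).encard = (preper (generic Φ) B).encard}})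
        (t := {v | v ∈ Pool.Agent.Results.MP_13bc7b_nt.GenericCount.box ω m H ∧
          v ∈ {v | HasFewPreperiodic κ d g B Φ v}})
        (fun v hv => ⟨hv.1, hv.2.1, hv.2.2.1, hv.2.2.2.trans_le hb⟩)
        (hH.subset fun v hv => hv.1)
      exact_mod_cast h1
    · filter_upwards [hfin] with H hH
      refine div_le_one_of_le₀ ?_ (Nat.cast_nonneg _)
      have h1 := Set.ncard_le_ncard (s := {v | v ∈
          Pool.Agent.Results.MP_13bc7b_nt.GenericCount.box ω m H ∧
          v ∈ {v | HasFewPreperiodic κ d g B Φ v}}) (fun v hv => hv.1) hH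
      exact_mod_cast h1
  · intro x S₁ S₂ hS₁ hS₂ h₁ h₂
    obtain ⟨S, h1, h2, h3⟩ :=
      Pool.Agent.Results.MP_13bc7b_nt.ThinFamilies.result.1 x S₁ S₂ hS₁ hS₂ h₁ h₂
    refine ⟨S, h1, h2, ?_⟩
    intro k _ r ω N d m g Φ hF B
    have hb := hgen k N d m g Φ hF B
    obtain ⟨hN, hd, hΦ, hmor, -⟩ := hF
    obtain ⟨_, h4⟩ := h3 k r ω N d hd m Φ hΦ hmor B
    refine h4.subset ?_
    rintro n ⟨hn1, hn2⟩
    exact ⟨hn1, fun hn3 => hn2 ⟨hn3.1, hn3.2.1, hn3.2.2.trans_le hb⟩⟩
  · intro k _ m i
    exact Pool.Agent.U934.GF.others_gon i

end Pool.Agent.Results.MP_13bc7b_nt.UniformNonIsotrivialFamilies
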